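import Pool.Agent.helper45.SGK.Spec

set_option autoImplicit false

namespace Pool.Agent.SGK

open Finset Pool.Agent.helper38.Neg Pool.Agent.helper55.NT
open Pool.Agent.SGC (Sg SCirc Ext Mv hw RN Solv stA stB)

theorem EQK_shift {k : ℕ} {P : Finset (Wd k)} (G : Gad P) (c : Fin 3 → ZMod 2) (g : Wd k)
    (hg : ∀ j, g j = (![c 0, c 1, c 2, 0] : Fin 4 → ZMod 2) (G.q j)) (β : ZMod 2) (z : Wd k) :
    z + g + G.e0 β ∈ tr P G.A ↔ z + G.e0 (β + ∑ i, c i) ∈ tr P G.A := by
  have key : ∀ (u : ZMod 2) (m : Fin 4), m ≠ 3 → ∀ y ∈ tr P G.A,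
      (fun j => y j + u * ((if G.q j = 0 then 1 else 0) + (if G.q j = m then 1 else 0))) ∈ tr P G.A := by
    intro u m hm y hy
    have hu : u = 0 ∨ u = 1 := by
      revert u; decide
    rcases hu with rfl | rfl
    · simpa using hy
    · have h1 := G.aff y hy _ (G.mem 0 (by decide)) _ (G.mem m hm)
      have h2 : (fun j => y j + 1 * ((if G.q j = 0 then 1 else 0) + (if G.q j = m then 1 else 0)))
          = y + (fun j => if G.q j = 0 then 1 else 0) + (fun j => if G.q j = m then 1 else 0) := by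
        funext j
        simp only [Pi.add_apply, one_mul, add_assoc]
      rw [h2]
      exact h1
  have key2 : ∀ y ∈ tr P G.A, (fun j => (y j + c 1 * ((if G.q j = 0 then 1 else 0) + (if G.q j = 1 then 1 else 0)))
      + c 2 * ((if G.q j = 0 then 1 else 0) + (if G.q j = 2 then 1 else 0))) ∈ tr P G.A := by
    intro y hy
    exact key (c 2) 2 (by decide) _ (key (c 1) 1 (by decide) y hy)
  have hall : ∀ (j : Fin 4) (z b c0 c1 c2 : ZMod 2),
      (z + (if j = 0 then b + (c0 + c1 + c2) else 0) + c1 * ((if j = 0 then 1 else 0) + (if j = 1 then 1 else 0)))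
      + c2 * ((if j = 0 then 1 else 0) + (if j = 2 then 1 else 0)) =
      z + (![c0, c1, c2, 0] : Fin 4 → ZMod 2) j + (if j = 0 then b else 0) := by decide
  have hall2 : ∀ (j : Fin 4) (z b c0 c1 c2 : ZMod 2),
      (z + (![c0, c1, c2, 0] : Fin 4 → ZMod 2) j + (if j = 0 then b else 0) + c1 * ((if j = 0 then 1 else 0) + (if j = 1 then 1 else 0)))
      + c2 * ((if j = 0 then 1 else 0) + (if j = 2 then 1 else 0)) =
      z + (if j = 0 then b + (c0 + c1 + c2) else 0) := by decide
  have hs : ∑ i, c i = c 0 + c 1 + c 2 := Fin.sum_univ_three c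
  constructor
  · intro h
    have h1 := key2 _ h
    have h2 : (fun j => ((z + g + G.e0 β) j + c 1 * ((if G.q j = 0 then 1 else 0) + (if G.q j = 1 then 1 else 0)))
      + c 2 * ((if G.q j = 0 then 1 else 0) + (if G.q j = 2 then 1 else 0))) = z + G.e0 (β + ∑ i, c i) := by
      funext j
      simp only [Pi.add_apply, Gad.e0, hg, hs]
      exact hall2 (G.q j) (z j) β (c 0) (c 1) (c 2)
    rw [h2] at h1
    exact h1
  · intro h
    have h1 := key2 _ h
    have h2 : (fun j => ((z + G.e0 (β + ∑ i, c i)) j + c 1 * ((if G.q j = 0 then 1 else 0) + (if G.q j = 1 then 1 else 0)))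
      + c 2 * ((if G.q j = 0 then 1 else 0) + (if G.q j = 2 then 1 else 0))) = z + g + G.e0 β := by
      funext j
      simp only [Pi.add_apply, Gad.e0, hg, hs]
      exact hall (G.q j) (z j) β (c 0) (c 1) (c 2)
    rw [h2] at h1
    exact h1

theorem EQK_Q {k : ℕ} {P : Finset (Wd k)} (G : Gad P) (c : Fin 3 → ZMod 2) (g : Wd k)
    (hg : ∀ j, g j = (![c 0, c 1, c 2, 0] : Fin 4 → ZMod 2) (G.q j)) (β : ZMod 2) (a : Wd k) :
    a + g ∈ G.Q β ↔ a ∈ G.Q (β + ∑ i, c i) := by
  have hgg : ∀ z : Wd k, z + g + g = z := by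
    intro z
    funext j
    have h : ∀ u v : ZMod 2, u + v + v = u := by decide
    exact h _ _
  simp only [Gad.Q, Finset.mem_filter, Finset.mem_univ, true_and]
  constructor
  · intro h z hz
    have h1 := h (z + g) ((EQK_shift G c g hg β z).mpr hz)
    have h2 : z + g + (a + g) = z + a := by
      rw [show z + g + (a + g) = (z + a) + g + g by abel, hgg]
    rw [h2] at h1
    exact h1
  · intro h z hz
    have h0 : z + g + g + G.e0 β ∈ tr P G.A := by rw [hgg]; exact hz
    have h1 := h (z + g) ((EQK_shift G c g hg β (z + g)).mp h0)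
    have h2 : z + g + a = z + (a + g) := by abel
    rw [h2] at h1
    exact h1

theorem EQK : EQK_stmt := by
  intro k _ n r P G v w b γ hw
  have hg : ∀ e : Fin r, ∀ j, γ (v4 (v e) w (G.q j)) = (![γ (v e 0), γ (v e 1), γ (v e 2), 0] : Fin 4 → ZMod 2) (G.q j) := by
    intro e j
    generalize G.q j = m
    fin_cases m
    · rfl
    · rfl
    · rfl
    · exact hw
  have hQ : ∀ (e : Fin r) (a : Wd k), (fun j => a j + γ (v4 (v e) w (G.q j))) ∈ G.Q (b e) ↔ a ∈ G.Q ((b + Mv v γ) e) := by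
    intro e a
    exact EQK_Q G (fun i => γ (v e i)) (fun j => γ (v4 (v e) w (G.q j))) (hg e) (b e) a
  funext p
  simp only [Function.comp_apply, Gad.inst]
  by_cases hp : ∃ c : Cl k (tw k n), ps c = p
  · obtain ⟨⟨s, a0⟩, rfl⟩ := hp
    rw [gl_ps]
    refine decide_eq_decide.mpr ?_
    constructor
    · rintro ⟨e, a, h1, h2⟩
      have h3 := ps_injective h1
      simp only [fc, Prod.mk.injEq] at h3
      obtain ⟨h4, h5⟩ := h3
      refine ⟨e, a0, ?_, ?_⟩
      · rw [h4]
      · rw [← hQ]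
        rw [h5, ← h4] at h2
        exact h2
    · rintro ⟨e, a, h1, h2⟩
      have h3 := ps_injective h1
      simp only [Prod.mk.injEq] at h3
      obtain ⟨h4, h5⟩ := h3
      refine ⟨e, fun j => a j + γ (v4 (v e) w (G.q j)), ?_, (hQ e a).mpr h2⟩
      congr 1
      simp only [fc, ← h4, ← h5]
      rfl
  · have h' : ∀ c : Cl k (tw k n), ps c ≠ p := fun c hc => hp ⟨c, hc⟩
    rw [gl_of_not γ p h']
    refine decide_eq_decide.mpr ?_
    constructor
    · rintro ⟨e, a, h1, h2⟩
      exact absurd h1 (h' _)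
    · rintro ⟨e, a, h1, h2⟩
      exact absurd h1 (h' _)

end Pool.Agent.SGK
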